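import Pool.Agent.Helper819.LU.Log7

/-!
MP_5b7a2c_ag: ascent of log uniformization, over arbitrary noetherian domains `A` of
characteristic `p`, to the quotients of `Spec A × 𝔸^m` by the group schemes over the fraction field
of `A` which act by translations, with respect to the closed sets and the blowings-up which come
from `Spec A`.
-/

set_option autoImplicit false

open MvPolynomial Pool.Agent.Helper819.LU

open scoped TensorProduct

universe u

namespace Pool.Agent.Results.MP_5b7a2c_ag.VectorGroupQuotientsLog

/-- The local ring of `Spec B` at the centre of the valuation ring `V` (for `B ⊆ V`): the fractions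
of elements of `B` whose denominators have the value `1`. -/
def centreRing {F : Type u} [Field F] (V : ValuationSubring F) (B : Subring F) : Subring F where
  carrier := {x | ∃ a ∈ B, ∃ b ∈ B, V.valuation b = 1 ∧ x = a / b}
  mul_mem' := (cr V B).mul_mem'
  one_mem' := (cr V B).one_mem'
  add_mem' := (cr V B).add_mem'
  zero_mem' := (cr V B).zero_mem'
  neg_mem' := (cr V B).neg_mem'

/-- The chart `A[I / f]` of the blowing-up of `Spec A` in the ideal `I`. -/
def blowUpChart {F : Type u} [Field F] (A : Subring F) (I : Ideal A) (f : A) : Subring F :=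
  Subring.closure ((A : Set F) ∪ {z | ∃ a ∈ I, z = (a : F) / (f : F)})

/-- `P` is a regular local ring and the zero set of `J` is a divisor with strict normal
crossings: the radical of `J` is generated by the product of some of the elements of a regular
system of parameters. -/
def RegularPair (P : Type u) [CommRing P] (J : Ideal P) : Prop :=
  ∃ (_ : IsRegularLocalRing P) (n : ℕ) (x : Fin n → P) (s : Finset (Fin n)),
    Ideal.span (Set.range x) = IsLocalRing.maximalIdeal P ∧ ringKrullDim P = n ∧
      J.radical = Ideal.span {∏ i ∈ s, x i}

/-- The blowing-up of `X = Spec A` in `V(I)` is a log desingularization of `(X, V(D))` along the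
valuation ring `V`. Here `f ∈ I` generates `I V`, the centre of the lift of the valuation lies in
the chart `Spec A[I / f]`, and the ideal `D I` defines the preimage of `V(D) ∪ V(I)`. -/
def IsLogDesingularization {F : Type u} [Field F] (V : ValuationSubring F) (A : Subring F)
    (D I : Ideal A) : Prop :=
  ∃ f ∈ I, f ≠ 0 ∧ (∀ a ∈ I, (a : F) / (f : F) ∈ V) ∧
    RegularPair (centreRing V (blowUpChart A I f))
      (Ideal.span {z | ∃ a ∈ D * I, (z : F) = (a : F)})

/-- The valuation ring `V` is log uniformizable on `Spec A`. (The blowings-up in the ideals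
`I₀ * I₁` are cofinal: the blowing-up in `I₀ * I₁` factors through the blowing-up in `I₀`.) -/
def IsLogUniformizable {F : Type u} [Field F] (V : ValuationSubring F) (A : Subring F) : Prop :=
  ∀ D I₀ : Ideal A, D ≠ ⊥ → I₀ ≠ ⊥ →
    ∃ I₁ : Ideal A, I₁ ≠ ⊥ ∧ IsLogDesingularization V A D (I₀ * I₁)

/-- The translation `f (x) ↦ f (x + v)` of the polynomial ring `D[x 0, ..., x (m - 1)]`. -/
noncomputable def translate {D : Type u} [CommRing D] {m : ℕ} (v : Fin m → D) :
    MvPolynomial (Fin m) D →ₐ[D] MvPolynomial (Fin m) D :=
  aeval fun i => X i + C (v i)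

/-- `S` consists of the polynomials `f` in `A[x 0, ..., x (m - 1)]` with `f (x + v) = f (x)` in
`D[x 0, ..., x (m - 1)]`. -/
def IsRingOfInvariants {A D : Type u} [CommRing A] [CommRing D] [Algebra A D] {m : ℕ}
    (v : Fin m → D) (S : Subalgebra A (MvPolynomial (Fin m) A)) : Prop :=
  ∀ f, f ∈ S ↔ translate v (MvPolynomial.map (algebraMap A D) f) =
    MvPolynomial.map (algebraMap A D) f

/-- The elements `v i` of the bialgebra `D` over `K` are primitive. -/
def ArePrimitive (K : Type u) {D : Type u} [Field K] [CommRing D] [Bialgebra K D] {m : ℕ}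
    (v : Fin m → D) : Prop :=
  ∀ i, Coalgebra.comul (R := K) (v i) = v i ⊗ₜ[K] 1 + 1 ⊗ₜ[K] v i

/-- The subring of `F` which is the image of `S`. -/
def image (S F : Type u) [CommRing S] [Field F] [Algebra S F] : Subring F :=
  (algebraMap S F).range

/-- The extension to `S` (as a subring of `F`) of an ideal of `A`. -/
noncomputable def extend {A S : Type u} (F : Type u) [CommRing A] [CommRing S] [Algebra A S]
    [Field F] [Algebra S F] (J : Ideal A) : Ideal (image S F) :=
  J.map ((algebraMap S F).rangeRestrict.comp (algebraMap A S))

/-- `V₀` is the intersection of `V` with the field of fractions `K` of `A`. -/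
def IsRestriction {K F : Type u} [Field K] [Field F] (A : Subring K) (S : Type u) [CommRing S]
    [Algebra A S] [Algebra S F] (V₀ : ValuationSubring K) (V : ValuationSubring F) : Prop :=
  ∀ a b : A, b ≠ 0 → ((a : K) / b ∈ V₀ ↔
    algebraMap S F (algebraMap A S a) / algebraMap S F (algebraMap A S b) ∈ V)

/-- `V` is log uniformizable on `Spec S` with respect to the closed sets and the blowings-up which
come from `Spec A`: for all nonzero ideals `D₀` and `I₀` of `A` there is an ideal `I₁` of `S` such
that the blowing-up of `Spec S` in `I₀ I₁`, which factors through the blowing-up in `I₀ S`, is a log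
desingularization of `(Spec S, V(D₀ S))` along `V`. -/
def IsLogUniformizableOver {F : Type u} [Field F] (A S : Type u) [CommRing A] [CommRing S]
    [Algebra A S] [Algebra S F] (V : ValuationSubring F) : Prop :=
  ∀ D₀ I₀ : Ideal A, D₀ ≠ ⊥ → I₀ ≠ ⊥ → ∃ I₁ : Ideal (image S F), I₁ ≠ ⊥ ∧
    IsLogDesingularization V (image S F) (extend F D₀) (extend F I₀ * I₁)

/-- Let `A` be a noetherian domain of characteristic `p` with the field of fractions `K`. Let
`H = Spec D` be an affine monoid scheme over `K` (for example a group scheme) and `v : H ⟶ 𝔾_a^m` a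
homomorphism, that is, let `v 0, ..., v (m - 1)` be primitive elements of the bialgebra `D` over
`K`. Suppose that the functions `v i` are integral over `A`. Let `S` be the ring of invariants, of
the `f` in `A[x]` with `f (x + v) = f (x)`, so that `X = Spec S` is the quotient of `Spec A × 𝔸^m`
by the translations by `H`, and let `F` be the field of fractions of `S`. Let `V` be a valuation
ring of `F` which contains `S`, and suppose that the valuation ring `V₀ = V ∩ K` is log
uniformizable on `Spec A`. Then `V` is log uniformizable on `X` with respect to the closed sets and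
the blowings-up which come from `Spec A`. -/
theorem result (p : ℕ) [Fact p.Prime] {K F D : Type u} [Field K] [CharP K p]
    (A : Subring K) [IsNoetherianRing A] (hA : ∀ z : K, ∃ a b : A, b ≠ 0 ∧ z = (a : K) / b)
    [CommRing D] [Bialgebra K D] (m : ℕ) (v : Fin m → D) (hv : ArePrimitive K v)
    (hint : ∀ i, IsIntegral A (v i)) (S : Subalgebra A (MvPolynomial (Fin m) A))
    (hS : IsRingOfInvariants v S) [Field F] [Algebra S F] [IsFractionRing S F]
    (V : ValuationSubring F) (hV : image S F ≤ V.toSubring) (V₀ : ValuationSubring K)
    (hV₀ : IsRestriction A S V₀ V) (hLU : IsLogUniformizable V₀ A) :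
    IsLogUniformizableOver A S V := by
  have hS' : S = Pool.Agent.Helper819.TR.invT A ({v} : Set (Fin m → D)) := by
    ext f
    rw [Pool.Agent.Helper819.TR.mem_invT, hS f]
    constructor
    · intro h w hw
      rw [Set.mem_singleton_iff.1 hw]
      exact h
    · intro h
      exact h v rfl
  intro D₀ I₀ hD hI
  exact log_final p A hA v hv hint hS' V (fun s => hV ⟨s, rfl⟩) V₀ hV₀ hLU D₀ I₀ hD hI

end Pool.Agent.Results.MP_5b7a2c_ag.VectorGroupQuotientsLog
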